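import Pool.Agent.Helper44.KS.GoalsD

/-!
# Project KS: packet BSQ
-/

namespace Pool.Agent.Helper4.KS

open MeasureTheory Filter Topology Set fwdDiff
open Pool.Agent.Helper44.KS

/-- a bounded sequence with vanishing differences of some positive order is constant -/
theorem const_of_diff : ∀ (j : ℕ) (β : ℕ → ℝ) (B : ℝ), (∀ i, |β i| ≤ B) →
    (∀ i, (fwdDiff (1 : ℕ))^[j + 1] β i = 0) → ∀ i, β (i + 1) = β i := by
  intro j
  induction j with
  | zero =>
    intro β B _ h i
    have := h i
    simp only [zero_add, Function.iterate_one, fwdDiff] at this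
    linarith
  | succ j ih =>
    intro β B hB h
    have hB' : ∀ i, |fwdDiff (1 : ℕ) β i| ≤ B + B := by
      intro i
      rw [fwdDiff]
      exact (abs_sub _ _).trans (add_le_add (hB _) (hB _))
    have h1 := ih (fwdDiff (1 : ℕ) β) (B + B) hB' (fun i ↦ by
      have := h i
      rwa [Function.iterate_succ_apply] at this)
    have h2 : ∀ i, fwdDiff (1 : ℕ) β i = fwdDiff (1 : ℕ) β 0 := by
      intro i
      induction i with
      | zero => rfl
      | succ i ih => rw [h1 i, ih]
    set γ : ℝ := fwdDiff (1 : ℕ) β 0 with hγ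
    have h3 : ∀ i : ℕ, β i = β 0 + i * γ := by
      intro i
      induction i with
      | zero => simp
      | succ i ih =>
        have := h2 i
        rw [fwdDiff] at this
        push_cast
        linarith
    have h4 : γ = 0 := by
      by_contra hne
      have hpos : 0 < |γ| := abs_pos.2 hne
      obtain ⟨i, hi⟩ := exists_nat_gt ((B + B) / |γ|)
      rw [div_lt_iff₀ hpos] at hi
      have e1 : (i : ℝ) * γ = β i - β 0 := by
        rw [h3 i]
        ring
      have e2 : (i : ℝ) * |γ| = |β i - β 0| := by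
        rw [← e1, abs_mul, Nat.abs_cast]
      have e3 : |β i - β 0| ≤ B + B := (abs_sub _ _).trans (add_le_add (hB _) (hB _))
      linarith
    intro i
    have := h3 i
    have h5 := h3 (i + 1)
    rw [h4] at this h5
    rw [this, h5]
    simp

/-- **Packet KS-BSQ.** -/
theorem bsq : S_BSQ := by
  intro j b B hj hB hd
  rw [Filter.tendsto_iff_ultrafilter]
  intro g hg
  have hlim : ∀ i, ∃ x ∈ Set.Icc (-B) B, Tendsto (fun N ↦ b N i) (g : Filter ℕ) (𝓝 x) := by
    intro i
    have hc : IsCompact (Set.Icc (-B) B) := isCompact_Icc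
    have := (isCompact_iff_ultrafilter_le_nhds.1 hc) (g.map (fun N ↦ b N i)) (by
      rw [Filter.le_principal_iff]
      refine Filter.mem_map.2 ?_
      refine Filter.univ_mem' fun N ↦ ?_
      exact abs_le.1 (hB N i))
    obtain ⟨x, hx, hx'⟩ := this
    exact ⟨x, hx, hx'⟩
  choose β hβ hβ' using hlim
  have hβB : ∀ i, |β i| ≤ B := fun i ↦ abs_le.2 (hβ i)
  obtain ⟨j, rfl⟩ : ∃ k, j = k + 1 := ⟨j - 1, by omega⟩
  have hzero : ∀ i, ∑ l ∈ Finset.range (j + 1 + 1),
      (-1 : ℝ) ^ l * ((j + 1).choose l : ℝ) * β (i + l) = 0 := by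
    intro i
    refine tendsto_nhds_unique (f := fun N ↦ ∑ l ∈ Finset.range (j + 1 + 1),
      (-1 : ℝ) ^ l * ((j + 1).choose l : ℝ) * b N (i + l)) (l := (g : Filter ℕ)) ?_
      ((hd i).mono_left hg)
    exact tendsto_finset_sum _ fun l _ ↦ (hβ' (i + l)).const_mul _
  have hz : ∀ i, (fwdDiff (1 : ℕ))^[j + 1] β i = 0 := by
    intro i
    rw [fwdDiff_iter_eq_sum_shift]
    have e : ∑ k ∈ Finset.range (j + 1 + 1),
        ((-1 : ℤ) ^ (j + 1 - k) * ((j + 1).choose k : ℤ)) • β (i + k • 1) =
        (-1 : ℝ) ^ (j + 1) * ∑ l ∈ Finset.range (j + 1 + 1),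
          (-1 : ℝ) ^ l * ((j + 1).choose l : ℝ) * β (i + l) := by
      rw [Finset.mul_sum]
      refine Finset.sum_congr rfl fun l hl ↦ ?_
      have hl' : l ≤ j + 1 := by
        have := Finset.mem_range.1 hl
        omega
      have e1 : (-1 : ℝ) ^ (j + 1 - l) = (-1 : ℝ) ^ (j + 1) * (-1 : ℝ) ^ l := by
        have : (-1 : ℝ) ^ (j + 1) = (-1 : ℝ) ^ (j + 1 - l) * (-1 : ℝ) ^ l := by
          rw [← pow_add]
          congr 1
          omega
        rw [this, mul_assoc, ← mul_pow]
        simp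
      rw [zsmul_eq_mul]
      push_cast
      rw [e1]
      simp
      ring
    rw [e, hzero i, mul_zero]
  have hc := const_of_diff j β B hβB hz 0
  have : Tendsto (fun N ↦ b N 1 - b N 0) (g : Filter ℕ) (𝓝 (β 1 - β 0)) :=
    (hβ' 1).sub (hβ' 0)
  rw [show β 1 - β 0 = 0 by rw [sub_eq_zero]; exact hc] at this
  exact this

end Pool.Agent.Helper4.KS
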