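import Pool.Agent.Helper75.KS.GoalsB

/-!
# Project KS: packet PAD (padding a poset with long chains on both sides)
-/

namespace Pool.Agent.Helper4.KS

open MeasureTheory Filter Topology Finset
open Pool.Agent.Helper44.KS Pool.Agent.Helper75.KS
open Pool.Agent.Helper89.GP

noncomputable section

/-- A permutation fixes an element which is comparable (in the order of `Fin m`) to all others. -/
theorem fix_of_comparable {m : ℕ} (σ : Equiv.Perm (Fin m)) (a : Fin m)
    (h1 : ∀ b, b < a → σ b < σ a) (h2 : ∀ b, a < b → σ a < σ b) : σ a = a := by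
  classical
  have e1 : (a : ℕ) ≤ (σ a : ℕ) := by
    have : (Finset.Iio a).card ≤ (Finset.Iio (σ a)).card := by
      refine Finset.card_le_card_of_injOn σ ?_ (σ.injective.injOn)
      intro b hb
      have hb' : b < a := by simpa using hb
      simpa using h1 b hb'
    simpa using this
  have e2 : (σ a : ℕ) ≤ (a : ℕ) := by
    have : (Finset.Ioi a).card ≤ (Finset.Ioi (σ a)).card := by
      refine Finset.card_le_card_of_injOn σ ?_ (σ.injective.injOn)
      intro b hb
      have hb' : a < b := by simpa using hb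
      simpa using h2 b hb'
    rw [Fin.card_Ioi, Fin.card_Ioi] at this
    have := (σ a).isLt
    have := a.isLt
    omega
  exact Fin.ext (le_antisymm e2 e1)

variable {n : ℕ}

/-- The embedding onto the middle part. -/
def mid (N n : ℕ) : Fin n ↪ Fin (N + n + N) where
  toFun i := ⟨N + i, by have := i.isLt; omega⟩
  inj' i j h := by
    have := congrArg Fin.val h
    simp only at this
    exact Fin.ext (by omega)

theorem mid_val (N n : ℕ) (i : Fin n) : ((mid N n i : Fin (N + n + N)) : ℕ) = N + i := rfl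

theorem mem_range_mid {N n : ℕ} {a : Fin (N + n + N)} (h1 : N ≤ (a : ℕ)) (h2 : (a : ℕ) < N + n) :
    a ∈ Set.range (mid N n) :=
  ⟨⟨a - N, by omega⟩, Fin.ext (by rw [mid_val]; simp only; omega)⟩

theorem range_mid {N n : ℕ} {a : Fin (N + n + N)} (h : a ∈ Set.range (mid N n)) :
    N ≤ (a : ℕ) ∧ (a : ℕ) < N + n := by
  obtain ⟨i, rfl⟩ := h
  rw [mid_val]
  have := i.isLt
  omega

/-- The padded relation. -/
def padR (N : ℕ) (R : Fin n → Fin n → Prop) (a b : Fin (N + n + N)) : Prop :=
  (a < b ∧ (a ∉ Set.range (mid N n) ∨ b ∉ Set.range (mid N n))) ∨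
    ∃ i j, a = mid N n i ∧ b = mid N n j ∧ R i j

theorem fix_out {N : ℕ} {R : Fin n → Fin n → Prop} {σ : Equiv.Perm (Fin (N + n + N))}
    (hσ : σ ∈ LX (padR N R)) {a : Fin (N + n + N)} (ha : a ∉ Set.range (mid N n)) : σ a = a := by
  rw [mem_LX] at hσ
  refine fix_of_comparable σ a (fun b hb ↦ ?_) (fun b hb ↦ ?_)
  · exact hσ _ _ (Or.inl ⟨hb, Or.inr ha⟩)
  · exact hσ _ _ (Or.inl ⟨hb, Or.inl ha⟩)

/-- The extension of a permutation. -/
def ext (N : ℕ) (τ : Equiv.Perm (Fin n)) : Equiv.Perm (Fin (N + n + N)) :=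
  τ.viaEmbedding (mid N n)

theorem ext_mid (N : ℕ) (τ : Equiv.Perm (Fin n)) (i : Fin n) :
    ext N τ (mid N n i) = mid N n (τ i) := Equiv.Perm.viaEmbedding_apply τ (mid N n) i

theorem ext_out (N : ℕ) (τ : Equiv.Perm (Fin n)) {a : Fin (N + n + N)}
    (ha : a ∉ Set.range (mid N n)) : ext N τ a = a :=
  Equiv.Perm.viaEmbedding_apply_of_notMem τ (mid N n) a ha

theorem ext_inj (N : ℕ) : Function.Injective (ext N : Equiv.Perm (Fin n) → _) := by
  intro τ τ' h
  ext i
  have := congrArg (fun f : Equiv.Perm (Fin (N + n + N)) ↦ f (mid N n i)) h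
  simp only [ext_mid] at this
  exact congrArg Fin.val ((mid N n).injective this)

theorem LX_pad (N : ℕ) (R : Fin n → Fin n → Prop) :
    LX (padR N R) = (LX R).map ⟨ext N, ext_inj N⟩ := by
  ext σ
  rw [Finset.mem_map]
  constructor
  · intro hσ
    have hout : ∀ a, a ∉ Set.range (mid N n) → σ a = a := fun a ha ↦ fix_out hσ ha
    have hin : ∀ i : Fin n, σ (mid N n i) ∈ Set.range (mid N n) := by
      intro i
      by_contra hcon
      have h1 := hout _ hcon
      have h2 := σ.injective h1
      rw [h2] at hcon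
      exact hcon ⟨i, rfl⟩
    choose t ht using hin
    have htinj : Function.Injective t := by
      intro i j hij
      have : σ (mid N n i) = σ (mid N n j) := by rw [← ht i, ← ht j, hij]
      exact (mid N n).injective (σ.injective this)
    let τ : Equiv.Perm (Fin n) := Equiv.ofBijective t (Finite.injective_iff_bijective.1 htinj)
    refine ⟨τ, ?_, ?_⟩
    · rw [mem_LX]
      intro i j hij
      have h1 : σ (mid N n i) < σ (mid N n j) :=
        mem_LX.1 hσ _ _ (Or.inr ⟨i, j, rfl, rfl, hij⟩)
      rw [← ht i, ← ht j, Fin.lt_def, mid_val, mid_val] at h1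
      have h2 : t i < t j := Fin.lt_def.2 (by omega)
      exact h2
    · ext1 a
      change ext N τ a = σ a
      by_cases ha : a ∈ Set.range (mid N n)
      · obtain ⟨i, rfl⟩ := ha
        rw [ext_mid]
        exact ht i
      · rw [ext_out N τ ha, hout a ha]
  · rintro ⟨τ, hτ, rfl⟩
    change ext N τ ∈ LX (padR N R)
    rw [mem_LX]
    rintro a b (⟨hab, h⟩ | ⟨i, j, rfl, rfl, hij⟩)
    · rw [Fin.lt_def] at hab ⊢
      by_cases ha : a ∈ Set.range (mid N n)
      · have hb : b ∉ Set.range (mid N n) := by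
          rcases h with h | h
          · exact absurd ha h
          · exact h
        obtain ⟨i, rfl⟩ := ha
        rw [ext_out N τ hb, ext_mid, mid_val]
        rw [mid_val] at hab
        have h3 := (τ i).isLt
        by_contra hcon
        exact hb (mem_range_mid (by omega) (by omega))
      · by_cases hb : b ∈ Set.range (mid N n)
        · obtain ⟨i, rfl⟩ := hb
          rw [ext_out N τ ha, ext_mid, mid_val]
          rw [mid_val] at hab
          have h3 := i.isLt
          by_contra hcon
          exact ha (mem_range_mid (by omega) (by omega))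
        · rw [ext_out N τ ha, ext_out N τ hb]
          exact hab
    · rw [ext_mid, ext_mid, Fin.lt_def, mid_val, mid_val]
      have := mem_LX.1 hτ i j hij
      rw [Fin.lt_def] at this
      omega

theorem Ex_pad (N : ℕ) (R : Fin n → Fin n → Prop) (X : Equiv.Perm (Fin (N + n + N)) → ℝ) :
    Ex (padR N R) X = Ex R fun τ ↦ X (ext N τ) := by
  unfold Ex
  rw [LX_pad, Finset.sum_map, Finset.card_map]
  rfl

theorem Pr_pad (N : ℕ) (R : Fin n → Fin n → Prop) (p : Equiv.Perm (Fin (N + n + N)) → Prop) :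
    Pr (padR N R) p = Pr R fun τ ↦ p (ext N τ) := by
  classical
  rw [Pr_eq_Ex, Pr_eq_Ex, Ex_pad]

theorem po_ext_mid (N : ℕ) (τ : Equiv.Perm (Fin n)) (i : Fin n) :
    po (ext N τ) (mid N n i) = N + po τ i := by
  unfold po
  rw [ext_mid, mid_val]

theorem po_ext_out (N : ℕ) (τ : Equiv.Perm (Fin n)) {a : Fin (N + n + N)}
    (ha : a ∉ Set.range (mid N n)) : po (ext N τ) a = a := by
  unfold po
  rw [ext_out N τ ha]

theorem hh_mid (N : ℕ) (R : Fin n → Fin n → Prop) (hne : (LX R).Nonempty) (i : Fin n) :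
    hh (padR N R) (mid N n i) = N + hh R i := by
  unfold hh
  rw [Ex_pad]
  simp only [po_ext_mid]
  push_cast
  rw [Ex_add, Ex_const hne]

theorem dev_mid (N : ℕ) (R : Fin n → Fin n → Prop) (hne : (LX R).Nonempty) (i : Fin n) :
    dev (padR N R) (mid N n i) = dev R i := by
  unfold dev
  rw [Ex_pad, hh_mid N R hne]
  simp only [po_ext_mid]
  push_cast
  refine Ex_congr fun τ _ ↦ ?_
  congr 1
  ring

theorem dev_out (N : ℕ) (R : Fin n → Fin n → Prop) (hne : (LX R).Nonempty)
    {a : Fin (N + n + N)} (ha : a ∉ Set.range (mid N n)) : dev (padR N R) a = 0 := by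
  have h1 : hh (padR N R) a = a := by
    unfold hh
    rw [Ex_pad]
    simp only [po_ext_out N _ ha]
    exact Ex_const hne _
  unfold dev
  rw [Ex_pad, h1]
  simp only [po_ext_out N _ ha, sub_self, abs_zero]
  exact Ex_const hne _

/-- **Packet KS-PAD.** -/
theorem pad : PadStmt := by
  intro n R x c K hc hne hmx h1 hnb
  obtain ⟨N, hN⟩ := exists_nat_ge (|K| * dev R x)
  have hd0 : 0 ≤ dev R x := by linarith
  have hKN : K * dev R x ≤ N :=
    (mul_le_mul_of_nonneg_right (le_abs_self K) hd0).trans hN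
  have hne' : (LX (padR N R)).Nonempty := by
    rw [LX_pad]
    exact hne.map
  refine ⟨N + n + N, padR N R, mid N n x, ?_, dev_mid N R hne x⟩
  refine ⟨hne', ?_, ?_, ?_, ?_, ?_⟩
  · intro z
    rw [dev_mid N R hne]
    by_cases hz : z ∈ Set.range (mid N n)
    · obtain ⟨i, rfl⟩ := hz
      rw [dev_mid N R hne]
      exact hmx i
    · rw [dev_out N R hne hz]
      exact hd0
  · rw [dev_mid N R hne]
    exact h1
  · intro u v huv
    by_cases hin : u ∈ Set.range (mid N n) ∧ v ∈ Set.range (mid N n)
    · obtain ⟨⟨i, rfl⟩, ⟨j, rfl⟩⟩ := hin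
      have hij : i ≠ j := fun h ↦ huv (by rw [h])
      rw [Pr_pad]
      have : (Pr R fun τ ↦ po (ext N τ) (mid N n i) < po (ext N τ) (mid N n j)) =
          Pr R fun τ ↦ po τ i < po τ j := by
        refine Pr_congr fun τ _ ↦ ?_
        rw [po_ext_mid, po_ext_mid]
        omega
      rw [this]
      exact hnb i j hij
    · have hout : u ∉ Set.range (mid N n) ∨ v ∉ Set.range (mid N n) := by tauto
      rcases lt_or_gt_of_ne huv with h | h
      · have : (Pr (padR N R) fun σ ↦ po σ u < po σ v) = 1 := by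
          rw [← Pr_true hne']
          refine Pr_congr fun σ hσ ↦ ?_
          simp only [iff_true]
          exact mem_LX.1 hσ u v (Or.inl ⟨h, hout⟩)
        rw [this]
        norm_num
        exact hc
      · have : (Pr (padR N R) fun σ ↦ po σ u < po σ v) = 0 := by
          refine Pr_eq_zero fun σ hσ ↦ ?_
          have := mem_LX.1 hσ v u (Or.inl ⟨h, hout.symm⟩)
          exact not_lt.2 (le_of_lt this)
        rw [this]
        norm_num
        exact hc
  · intro σ hσ
    rw [dev_mid N R hne]
    rw [LX_pad, Finset.mem_map] at hσ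
    obtain ⟨τ, _, rfl⟩ := hσ
    change _ ≤ ((po (ext N τ) (mid N n x) : ℕ) : ℝ)
    rw [po_ext_mid]
    push_cast
    have : (0 : ℝ) ≤ po τ x := Nat.cast_nonneg _
    linarith
  · intro σ hσ
    rw [dev_mid N R hne]
    rw [LX_pad, Finset.mem_map] at hσ
    obtain ⟨τ, _, rfl⟩ := hσ
    change ((po (ext N τ) (mid N n x) : ℕ) : ℝ) + _ ≤ _
    rw [po_ext_mid]
    push_cast
    have : ((po τ x : ℕ) : ℝ) ≤ n := by exact_mod_cast (po_lt_n τ x).le
    linarith

end

end Pool.Agent.Helper4.KS
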